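import Mathlib

set_option autoImplicit false
open Set Metric Real Filter Topology

namespace Pool.Agent.H275R2.Kwise

variable {E : Type} [NormedAddCommGroup E] [InnerProductSpace ℝ E]

lemma inner_le_ball {c x u : E} {ρ : ℝ} (hx : x ∈ closedBall c ρ) :
    inner ℝ u x ≤ inner ℝ u c + ρ * ‖u‖ := by
  have h1 : inner ℝ u x = inner ℝ u c + inner ℝ u (x - c) := by
    rw [inner_sub_right]; ring
  have h2 : inner ℝ u (x - c) ≤ ‖u‖ * ‖x - c‖ := real_inner_le_norm _ _
  have h3 : ‖x - c‖ ≤ ρ := by rwa [← dist_eq_norm]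
  nlinarith [norm_nonneg u]

lemma inner_ge_ball {c x u : E} {ρ : ℝ} (hx : x ∈ closedBall c ρ) :
    inner ℝ u c - ρ * ‖u‖ ≤ inner ℝ u x := by
  have h := inner_le_ball (u := -u) hx
  rw [inner_neg_left, inner_neg_left, norm_neg] at h
  linarith

lemma support_ball {c u : E} {ρ t : ℝ} (hρ : 0 ≤ ρ) (hu : ‖u‖ = 1)
    (h1 : ∃ x ∈ closedBall c ρ, inner ℝ u x = t)
    (h2 : (∀ x ∈ closedBall c ρ, inner ℝ u x ≤ t) ∨ (∀ x ∈ closedBall c ρ, t ≤ inner ℝ u x)) :
    |inner ℝ u c - t| = ρ := by
  obtain ⟨x, hx, hxt⟩ := h1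
  have hup := inner_le_ball (u := u) hx
  have hdn := inner_ge_ball (u := u) hx
  have huu : inner ℝ u u = 1 := by rw [real_inner_self_eq_norm_sq, hu]; norm_num
  rcases h2 with h | h
  · have hm : c + ρ • u ∈ closedBall c ρ := by
      rw [mem_closedBall, dist_eq_norm, add_sub_cancel_left, norm_smul, hu, mul_one,
        Real.norm_eq_abs, abs_of_nonneg hρ]
    have := h _ hm
    rw [inner_add_right, inner_smul_right, huu] at this
    rw [abs_of_nonpos] <;> nlinarith
  · have hm : c - ρ • u ∈ closedBall c ρ := by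
      rw [mem_closedBall, dist_eq_norm, sub_sub_cancel_left, norm_neg, norm_smul, hu, mul_one,
        Real.norm_eq_abs, abs_of_nonneg hρ]
    have := h _ hm
    rw [inner_sub_right, inner_smul_right, huu] at this
    rw [abs_of_nonneg] <;> nlinarith

lemma piece {ι : Type} [Finite ι] (c : ι → E) (ρ : ι → ℝ) (T : Set ι) (i : ι) (hi : i ∈ T)
    (hρ : 0 < ρ i) (u : E) (hu : ‖u‖ = 1)
    (h : ∀ j ∈ T, j ≠ i → inner ℝ u (c j) + ρ j < inner ℝ u (c i) + ρ i) :
    ∃ V : Set E, IsOpen V ∧ (V ∩ sphere (c i) (ρ i)).Nonempty ∧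
      V ∩ sphere (c i) (ρ i) ⊆ frontier (convexHull ℝ (⋃ j ∈ T, closedBall (c j) (ρ j))) := by
  have huu : inner ℝ u u = 1 := by rw [real_inner_self_eq_norm_sq, hu]; norm_num
  refine ⟨⋂ j : ι, {q : E | j ∈ T → j ≠ i →
    inner ℝ (q - c i) (c j) + ρ i * ρ j < inner ℝ (q - c i) (c i) + ρ i * ρ i}, ?_, ?_, ?_⟩
  · apply isOpen_iInter_of_finite
    intro j
    by_cases hj : j ∈ T ∧ j ≠ i
    · have : {q : E | j ∈ T → j ≠ i →
          inner ℝ (q - c i) (c j) + ρ i * ρ j < inner ℝ (q - c i) (c i) + ρ i * ρ i} =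
          {q : E | inner ℝ (q - c i) (c j) + ρ i * ρ j < inner ℝ (q - c i) (c i) + ρ i * ρ i} := by
        ext q; simp [hj.1, hj.2]
      rw [this]
      apply isOpen_lt <;> fun_prop
    · have : {q : E | j ∈ T → j ≠ i →
          inner ℝ (q - c i) (c j) + ρ i * ρ j < inner ℝ (q - c i) (c i) + ρ i * ρ i} = univ := by
        ext q; simp only [mem_setOf_eq, mem_univ, iff_true]
        intro h1 h2; exact absurd ⟨h1, h2⟩ hj
      rw [this]; exact isOpen_univ
  · refine ⟨c i + ρ i • u, ?_, ?_⟩
    · rw [mem_iInter]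
      intro j hj hji
      simp only [add_sub_cancel_left, inner_smul_left, conj_trivial]
      have := h j hj hji
      nlinarith
    · rw [mem_sphere, dist_eq_norm, add_sub_cancel_left, norm_smul, hu, mul_one,
        Real.norm_eq_abs, abs_of_pos hρ]
  · rintro q ⟨hq, hqs⟩
    rw [mem_iInter] at hq
    set y := q - c i with hy
    have hyn : ‖y‖ = ρ i := by rw [hy, ← dist_eq_norm]; exact hqs
    have hyy : inner ℝ y y = ρ i * ρ i := by rw [real_inner_self_eq_norm_sq, hyn]; ring
    have hhull : convexHull ℝ (⋃ j ∈ T, closedBall (c j) (ρ j)) ⊆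
        {x | inner ℝ y x ≤ inner ℝ y (c i) + ρ i * ρ i} := by
      apply convexHull_min
      · intro x hx
        rw [mem_iUnion₂] at hx
        obtain ⟨j, hj, hxj⟩ := hx
        have h1 := inner_le_ball (u := y) hxj
        rw [hyn] at h1
        show inner ℝ y x ≤ _
        by_cases hji : j = i
        · subst hji; linarith
        · have := hq j hj hji
          linarith
      · exact convex_halfSpace_le (isLinearMap_inner y) _
    have hyq : inner ℝ y q = inner ℝ y (c i) + ρ i * ρ i := by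
      have : q = c i + y := by rw [hy]; abel
      rw [this, inner_add_right, hyy]
    rw [frontier, mem_diff]
    constructor
    · apply subset_closure
      apply subset_convexHull
      rw [mem_iUnion₂]
      exact ⟨i, hi, sphere_subset_closedBall hqs⟩
    · intro hint
      obtain ⟨ε, hε, hball⟩ := Metric.mem_nhds_iff.1 (mem_interior_iff_mem_nhds.1 hint)
      have hmem : q + (ε / (2 * ρ i)) • y ∈ ball q ε := by
        rw [mem_ball, dist_eq_norm, add_sub_cancel_left, norm_smul, hyn, Real.norm_eq_abs,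
          abs_of_pos (by positivity)]
        have : ε / (2 * ρ i) * ρ i = ε / 2 := by field_simp
        rw [this]; linarith
      have h2 := hhull (hball hmem)
      simp only [mem_setOf_eq, inner_add_right, inner_smul_right, hyy, hyq] at h2
      have : 0 < ε / (2 * ρ i) * (ρ i * ρ i) := by positivity
      linarith
where
  isLinearMap_inner (y : E) : IsLinearMap ℝ (fun x : E => inner ℝ y x) :=
    ⟨fun a b => inner_add_right y a b, fun a b => by simp [inner_smul_right]⟩

lemma ball_subset_hull [FiniteDimensional ℝ E] {J : Type} [Finite J] (P : J → E)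
    (hcover : ∀ w : E, ∃ j, ‖w‖ ≤ inner ℝ w (P j)) : ball (0 : E) 1 ⊆ convexHull ℝ (range P) := by
  intro x hx
  by_contra hnot
  have hfin : (range P).Finite := finite_range P
  have hclosed : IsClosed (convexHull ℝ (range P)) := hfin.isClosed_convexHull ℝ
  obtain ⟨f, s, hf1, hf2⟩ := geometric_hahn_banach_closed_point (convex_convexHull ℝ _) hclosed hnot
  haveI : CompleteSpace E := FiniteDimensional.complete ℝ E
  set w : E := (InnerProductSpace.toDual ℝ E).symm f with hw
  have hfw : ∀ y, f y = inner ℝ w y := by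
    intro y
    rw [hw, InnerProductSpace.toDual_symm_apply]
  obtain ⟨j, hj⟩ := hcover w
  have h1 : f (P j) < s := hf1 _ (subset_convexHull ℝ _ (mem_range_self j))
  rw [hfw] at h1 hf2
  have h2 : inner ℝ w x ≤ ‖w‖ * ‖x‖ := real_inner_le_norm _ _
  have h3 : ‖x‖ < 1 := by rwa [mem_ball_zero_iff] at hx
  nlinarith [norm_nonneg w, norm_nonneg x]

end Pool.Agent.H275R2.Kwise
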