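import Mathlib

set_option autoImplicit false
open Set Metric Real

namespace Pool.Agent.H275R2.Kwise

abbrev E3 : Type := EuclideanSpace ℝ (Fin 3)

lemma inner3 (u x : E3) : inner ℝ u x = u 0 * x 0 + u 1 * x 1 + u 2 * x 2 := by
  simp [PiLp.inner_apply, Fin.sum_univ_three]
  ring

lemma norm3 (u : E3) : ‖u‖ ^ 2 = u 0 ^ 2 + u 1 ^ 2 + u 2 ^ 2 := by
  rw [EuclideanSpace.norm_sq_eq]
  simp [Fin.sum_univ_three]

lemma cos_le_cos_of_between {x y : ℝ} (hy0 : 0 ≤ y) (hyx : y ≤ x) (hx : x ≤ 2 * π - y) :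
    cos x ≤ cos y := by
  rcases le_total x π with h | h
  · exact cos_le_cos_of_nonneg_of_le_pi hy0 h hyx
  · have : cos x = cos (2 * π - x) := by rw [cos_two_pi_sub]
    rw [this]
    exact cos_le_cos_of_nonneg_of_le_pi hy0 (by linarith) (by linarith)

/-- The angle of the `j`-th base point. -/
noncomputable def th (m : ℕ) (j : Fin m) : ℝ := 2 * π * (j : ℕ) / m

lemma cos_th_sub {m : ℕ} (hm : 4 ≤ m) {i j : Fin m} (hij : i ≠ j) :
    cos (th m i - th m j) ≤ cos (2 * π / m) := by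
  have hm0 : (0 : ℝ) < m := by positivity
  have key : ∀ i j : Fin m, (j : ℕ) < i → cos (th m i - th m j) ≤ cos (2 * π / m) := by
    intro i j h
    have hj : ((j : ℕ) : ℝ) + 1 ≤ ((i : ℕ) : ℝ) := by exact_mod_cast h
    have hi : ((i : ℕ) : ℝ) + 1 ≤ (m : ℝ) := by exact_mod_cast i.2
    have hj0 : (0 : ℝ) ≤ ((j : ℕ) : ℝ) := by positivity
    have e : th m i - th m j = 2 * π * (((i : ℕ) : ℝ) - (j : ℕ)) / m := by
      unfold th; ring
    rw [e]
    apply cos_le_cos_of_between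
    · positivity
    · rw [div_le_div_iff_of_pos_right hm0]
      have : 0 < π := pi_pos
      nlinarith
    · rw [div_le_iff₀ hm0]
      have h2 : (2 * π - 2 * π / m) * m = 2 * π * (m - 1) := by field_simp
      rw [h2]
      have : 0 < π := pi_pos
      nlinarith
  rcases lt_or_gt_of_ne (fun h => hij (Fin.ext h) : (i : ℕ) ≠ j) with h | h
  · rw [← cos_neg, neg_sub]; exact key j i h
  · exact key i j h

lemma exists_near {m : ℕ} (hm : 4 ≤ m) (φ : ℝ) :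
    ∃ j : Fin m, cos (π / m) ≤ cos (φ - th m j) := by
  have hm0 : (0 : ℝ) < m := by positivity
  have hmz : (m : ℤ) ≠ 0 := by omega
  set N : ℤ := round (φ * m / (2 * π)) with hN
  have hround : |φ * m / (2 * π) - N| ≤ 1 / 2 := abs_sub_round _
  have hpi : 0 < π := pi_pos
  have hd : |φ - 2 * π * N / m| ≤ π / m := by
    have e : φ - 2 * π * N / m = (2 * π / m) * (φ * m / (2 * π) - N) := by
      field_simp
    rw [e, abs_mul, abs_of_pos (by positivity : (0 : ℝ) < 2 * π / m)]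
    calc 2 * π / m * |φ * m / (2 * π) - N| ≤ 2 * π / m * (1 / 2) := by gcongr
      _ = π / m := by ring
  have hr0 : 0 ≤ N % m := Int.emod_nonneg _ hmz
  have hr1 : N % m < m := Int.emod_lt_of_pos _ (by omega)
  refine ⟨⟨(N % m).toNat, by omega⟩, ?_⟩
  have hNe : (N : ℝ) = m * ((N / m : ℤ) : ℝ) + ((N % m).toNat : ℝ) := by
    have h1 : N = m * (N / m) + ((N % m).toNat : ℤ) := by
      rw [Int.toNat_of_nonneg hr0]; exact (Int.mul_ediv_add_emod N m).symm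
    exact_mod_cast h1
  have e2 : φ - th m ⟨(N % m).toNat, by omega⟩ = φ - 2 * π * N / m + ((N / m : ℤ) : ℝ) * (2 * π) := by
    unfold th
    simp only
    have : 2 * π * (N : ℝ) / m = ((N / m : ℤ) : ℝ) * (2 * π) + 2 * π * ((N % m).toNat : ℝ) / m := by
      rw [hNe]; field_simp
    linarith
  rw [e2, cos_add_int_mul_two_pi, ← cos_abs (φ - 2 * π * N / m)]
  apply cos_le_cos_of_nonneg_of_le_pi (abs_nonneg _) _ hd
  rw [div_le_iff₀ hm0]
  have : (4 : ℝ) ≤ m := by exact_mod_cast hm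
  nlinarith

lemma exists_near_vec {m : ℕ} (hm : 4 ≤ m) (a b : ℝ) :
    ∃ j : Fin m, √(a ^ 2 + b ^ 2) * cos (π / m) ≤ a * cos (th m j) + b * sin (th m j) := by
  set z : ℂ := ⟨a, b⟩ with hz
  obtain ⟨j, hj⟩ := exists_near hm z.arg
  refine ⟨j, ?_⟩
  have hn : ‖z‖ = √(a ^ 2 + b ^ 2) := by
    rw [Complex.norm_eq_sqrt_sq_add_sq]
  have h1 : ‖z‖ * cos z.arg = a := Complex.norm_mul_cos_arg z
  have h2 : ‖z‖ * sin z.arg = b := Complex.norm_mul_sin_arg z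
  rw [← hn]
  calc ‖z‖ * cos (π / m) ≤ ‖z‖ * cos (z.arg - th m j) := by gcongr
    _ = (‖z‖ * cos z.arg) * cos (th m j) + (‖z‖ * sin z.arg) * sin (th m j) := by
        rw [cos_sub]; ring
    _ = _ := by rw [h1, h2]

lemma noncol {x1 y1 x2 y2 x3 y3 S : ℝ} (h1 : x1 ^ 2 + y1 ^ 2 = S) (h2 : x2 ^ 2 + y2 ^ 2 = S)
    (h3 : x3 ^ 2 + y3 ^ 2 = S) (h12 : x1 * x2 + y1 * y2 < S) (h13 : x1 * x3 + y1 * y3 < S)
    (h23 : x2 * x3 + y2 * y3 < S) :
    (x2 - x1) * (y3 - y1) - (y2 - y1) * (x3 - x1) ≠ 0 := by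
  intro h
  set a1 := x2 - x1 with ha1
  set a2 := y2 - y1 with ha2
  set b1 := x3 - x1 with hb1
  set b2 := y3 - y1 with hb2
  have ea : 2 * (x1 * a1 + y1 * a2) + (a1 ^ 2 + a2 ^ 2) = 0 := by
    rw [ha1, ha2]; linear_combination h2 - h1
  have eb : 2 * (x1 * b1 + y1 * b2) + (b1 ^ 2 + b2 ^ 2) = 0 := by
    rw [hb1, hb2]; linear_combination h3 - h1
  have pa : 0 < a1 ^ 2 + a2 ^ 2 := by
    have : a1 ^ 2 + a2 ^ 2 = 2 * (S - (x1 * x2 + y1 * y2)) := by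
      rw [ha1, ha2]; linear_combination h2 + h1
    linarith
  have pb : 0 < b1 ^ 2 + b2 ^ 2 := by
    have : b1 ^ 2 + b2 ^ 2 = 2 * (S - (x1 * x3 + y1 * y3)) := by
      rw [hb1, hb2]; linear_combination h3 + h1
    linarith
  have pab : 0 < (a1 - b1) ^ 2 + (a2 - b2) ^ 2 := by
    have : (a1 - b1) ^ 2 + (a2 - b2) ^ 2 = 2 * (S - (x2 * x3 + y2 * y3)) := by
      rw [ha1, ha2, hb1, hb2]; linear_combination h2 + h3
    linarith
  have e1 : (a1 ^ 2 + a2 ^ 2) * ((b1 ^ 2 + b2 ^ 2) - (a1 * b1 + a2 * b2)) = 0 := by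
    linear_combination (-2) * (-x1 * a2 + y1 * a1) * h + (a1 ^ 2 + a2 ^ 2) * eb
      - (a1 * b1 + a2 * b2) * ea
  have e2 : (b1 ^ 2 + b2 ^ 2) * ((a1 ^ 2 + a2 ^ 2) - (a1 * b1 + a2 * b2)) = 0 := by
    linear_combination (2) * (-x1 * b2 + y1 * b1) * h + (b1 ^ 2 + b2 ^ 2) * ea
      - (a1 * b1 + a2 * b2) * eb
  have f1 := (mul_eq_zero.1 e1).resolve_left pa.ne'
  have f2 := (mul_eq_zero.1 e2).resolve_left pb.ne'
  nlinarith

end Pool.Agent.H275R2.Kwise
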