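import Pool.Agent.H275R2.Kwise.Nondeg

set_option autoImplicit false
open Set Metric Real Filter Topology

namespace Pool.Agent.H275R2.Kwise

/-- The family of balls: `none` is the big ball, `some j` the small ball around `P j`. -/
noncomputable def cen {J : Type} (P : J → E3) : Option J → E3
  | none => 0
  | some j => P j

noncomputable def rad {J : Type} (r ε : ℝ) : Option J → ℝ
  | none => r
  | some _ => ε

noncomputable def fam {J : Type} (P : J → E3) (r ε : ℝ) (i : Option J) : Set E3 :=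
  closedBall (cen P i) (rad r ε i)

/-- The properties of the point configuration. -/
structure Config {J : Type} (P : J → E3) (r0 : ℝ) : Prop where
  r0_pos : 0 < r0
  r0_lt : r0 < 1
  cover : ∀ w : E3, ∃ j, ‖w‖ ≤ inner ℝ w (P j)
  pair : ∀ i j : J, i ≠ j → ∃ w : E3, w ≠ 0 ∧ ‖w‖ ≤ inner ℝ w (P i) ∧ ‖w‖ ≤ inner ℝ w (P j)
  exp : ∀ i : J, ∃ w : E3, ‖w‖ = 1 ∧ 1 < inner ℝ w (P i) ∧ ∀ j, j ≠ i → inner ℝ w (P j) < r0
  gp : GP P

/-- The properties of the radii. -/
structure Radii {J : Type} (P : J → E3) (r0 r ε : ℝ) : Prop where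
  r_gt : r0 < r
  r_lt : r < 1
  ε_pos : 0 < ε
  ε_lt1 : ε < 1 - r
  ε_lt2 : ε < r - r0
  nd4 : ∀ a b c d : J, a ≠ b → a ≠ c → a ≠ d → b ≠ c → b ≠ d → c ≠ d → ∀ (w : E3) (t : ℝ),
    ‖w‖ = 1 → |inner ℝ w (P a) - t| = ε →
      |inner ℝ w (P b) - t| = ε → |inner ℝ w (P c) - t| = ε → |inner ℝ w (P d) - t| = ε → False
  nd3 : ∀ a b c : J, a ≠ b → a ≠ c → b ≠ c → ∀ (w : E3) (t : ℝ),
    ‖w‖ = 1 → |inner ℝ w (P a) - t| = ε →
      |inner ℝ w (P b) - t| = ε → |inner ℝ w (P c) - t| = ε → |t| = r → False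

lemma exists_radii {J : Type} [Fintype J] {P : J → E3} {r0 : ℝ} (hP : Config P r0)
    (hcard : 4 ≤ Fintype.card J) : ∃ r ε, Radii P r0 r ε := by
  obtain ⟨r, hr1, hr2, hr⟩ := exists_good_radius hP.gp hcard hP.r0_lt
  have h4 : ∀ᶠ ε in 𝓝[>] (0 : ℝ), ∀ a b c d : J, a ≠ b → a ≠ c → a ≠ d → b ≠ c → b ≠ d → c ≠ d →
      ∀ (w : E3) (t : ℝ), ‖w‖ = 1 → |inner ℝ w (P a) - t| = ε →
      |inner ℝ w (P b) - t| = ε → |inner ℝ w (P c) - t| = ε → |inner ℝ w (P d) - t| = ε →
      False := by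
    simp only [eventually_all]
    intro a b c d hab hac had hbc hbd hcd
    exact eventually_four hP.gp a b c d hab hac had hbc hbd hcd
  have h3 : ∀ᶠ ε in 𝓝[>] (0 : ℝ), ∀ a b c : J, a ≠ b → a ≠ c → b ≠ c →
      ∀ (w : E3) (t : ℝ), ‖w‖ = 1 → |inner ℝ w (P a) - t| = ε →
      |inner ℝ w (P b) - t| = ε → |inner ℝ w (P c) - t| = ε → |t| = r → False := by
    simp only [eventually_all]
    intro a b c hab hac hbc
    exact eventually_three hr a b c hab hac hbc
  have h5 : ∀ᶠ ε in 𝓝[>] (0 : ℝ), 0 < ε := eventually_mem_nhdsWithin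
  have h6 : ∀ᶠ ε in 𝓝[>] (0 : ℝ), ε < 1 - r :=
    nhdsWithin_le_nhds (Iio_mem_nhds (by linarith))
  have h7 : ∀ᶠ ε in 𝓝[>] (0 : ℝ), ε < r - r0 :=
    nhdsWithin_le_nhds (Iio_mem_nhds (by linarith))
  obtain ⟨ε, g4, g3, g5, g6, g7⟩ := (h4.and (h3.and (h5.and (h6.and h7)))).exists
  exact ⟨r, ε, ⟨hr1, hr2, g5, g6, g7, g4, g3⟩⟩

variable {J : Type} {P : J → E3} {r0 r ε : ℝ}

lemma fam_none : fam P r ε none = closedBall 0 r := rfl
lemma fam_some (j : J) : fam P r ε (some j) = closedBall (P j) ε := rfl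

/-- Every small ball is separated from all the other members by one plane. -/
lemma strict_sep (hP : Config P r0) (hR : Radii P r0 r ε) (j : J) :
    ∃ w : E3, ‖w‖ = 1 ∧ (∀ x ∈ fam P r ε (some j), 1 - ε < inner ℝ w x) ∧
      ∀ i, i ≠ some j → ∀ x ∈ fam P r ε i, inner ℝ w x ≤ r := by
  obtain ⟨w, hw, h1, h2⟩ := hP.exp j
  refine ⟨w, hw, ?_, ?_⟩
  · intro x hx
    have := inner_ge_ball (u := w) hx
    simp only [cen, rad, hw, mul_one] at this
    linarith
  · intro i hi x hx
    have h := inner_le_ball (u := w) hx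
    rw [hw, mul_one] at h
    cases i with
    | none => simpa [cen, rad] using h
    | some k =>
      simp only [cen, rad] at h
      have := h2 k (fun hk => hi (by rw [hk]))
      have := hR.ε_lt2
      linarith

lemma center_mem (hP : Config P r0) (hR : Radii P r0 r ε) (i : Option J) :
    cen P i ∈ fam P r ε i := by
  apply mem_closedBall_self
  cases i with
  | none => exact (hP.r0_pos.trans hR.r_gt).le
  | some k => exact hR.ε_pos.le

lemma fam_injective (hP : Config P r0) (hR : Radii P r0 r ε) :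
    Function.Injective (fam P r ε) := by
  have key : ∀ (j : J) (i : Option J), i ≠ some j → fam P r ε (some j) ≠ fam P r ε i := by
    intro j i hij heq
    obtain ⟨w, _, h1, h2⟩ := strict_sep hP hR j
    have hc := center_mem hP hR i
    have := h2 i hij _ hc
    have := h1 _ (heq ▸ hc)
    have := hR.ε_lt1
    linarith
  intro i i' h
  by_contra hne
  cases i with
  | none =>
    cases i' with
    | none => exact hne rfl
    | some k => exact key k none (by simp) h.symm
  | some j => exact key j i' (fun h' => hne h'.symm) h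

/-! ### Definitions (copied in the hand-in) -/

def IsConvexBody (K : Set E3) : Prop := IsCompact K ∧ Convex ℝ K ∧ (interior K).Nonempty

def SeparatedByPlane (X Y : Set E3) : Prop :=
  ∃ (u : E3) (t : ℝ), u ≠ 0 ∧ (∀ x ∈ X, inner ℝ u x < t) ∧ (∀ y ∈ Y, t < inner ℝ u y)

def Separable (F : Set (Set E3)) : Prop :=
  ∀ A ∈ F, ∀ B ∈ F, ∀ C ∈ F, A ≠ B → A ≠ C → B ≠ C → SeparatedByPlane (A ∪ B) C

def Supports (u : E3) (t : ℝ) (K : Set E3) : Prop :=
  (∃ x ∈ K, inner ℝ u x = t) ∧ ((∀ x ∈ K, inner ℝ u x ≤ t) ∨ (∀ x ∈ K, t ≤ inner ℝ u x))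

def Nondegenerate (F : Set (Set E3)) : Prop :=
  ∀ G ⊆ F, G.ncard = 4 → ¬ ∃ (u : E3) (t : ℝ), u ≠ 0 ∧ ∀ K ∈ G, Supports u t K

def InConvexPosition (F : Set (Set E3)) : Prop :=
  ∀ C ∈ F, ∃ S : Set E3, S ⊆ frontier C ∧ S ⊆ frontier (convexHull ℝ (⋃₀ F)) ∧
    ∃ V : Set E3, IsOpen V ∧ (V ∩ frontier C).Nonempty ∧ V ∩ frontier C ⊆ S

lemma rad_pos (hP : Config P r0) (hR : Radii P r0 r ε) (i : Option J) :
    0 < (rad r ε i : ℝ) := by
  cases i with
  | none => exact hP.r0_pos.trans hR.r_gt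
  | some k => exact hR.ε_pos

lemma fam_body (hP : Config P r0) (hR : Radii P r0 r ε) (i : Option J) :
    IsConvexBody (fam P r ε i) := by
  refine ⟨isCompact_closedBall _ _, convex_closedBall _ _, ?_⟩
  refine ⟨cen P i, ?_⟩
  apply ball_subset_interior_closedBall
  exact mem_ball_self (rad_pos hP hR i)

lemma fam_separable (hP : Config P r0) (hR : Radii P r0 r ε) :
    Separable (range (fam P r ε)) := by
  rintro _ ⟨a, rfl⟩ _ ⟨b, rfl⟩ _ ⟨c, rfl⟩ hab hac hbc
  have hab' : a ≠ b := fun h => hab (by rw [h])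
  have hac' : a ≠ c := fun h => hac (by rw [h])
  have hbc' : b ≠ c := fun h => hbc (by rw [h])
  have e1 := hR.ε_lt1
  have e2 := hR.ε_lt2
  have e3 := hR.ε_pos
  cases c with
  | some j =>
    obtain ⟨w, hw, h1, h2⟩ := strict_sep hP hR j
    refine ⟨w, (r + (1 - ε)) / 2, ?_, ?_, ?_⟩
    · intro h0; rw [h0] at hw; simp at hw
    · rintro x (hx | hx)
      · have := h2 a hac' x hx; linarith
      · have := h2 b hbc' x hx; linarith
    · intro y hy
      have := h1 y hy; linarith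
  | none =>
    obtain ⟨i, rfl⟩ := Option.ne_none_iff_exists'.1 hac'
    obtain ⟨j, rfl⟩ := Option.ne_none_iff_exists'.1 hbc'
    obtain ⟨w, hw, h1, h2⟩ := hP.pair i j (fun h => hab' (by rw [h]))
    have hw' : 0 < ‖w‖ := norm_pos_iff.2 hw
    refine ⟨-w, -((r + (1 - ε)) / 2 * ‖w‖), neg_ne_zero.2 hw, ?_, ?_⟩
    · rintro x (hx | hx)
      · have h3 := inner_ge_ball (u := w) hx
        simp only [cen, rad] at h3
        rw [inner_neg_left]
        nlinarith
      · have h3 := inner_ge_ball (u := w) hx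
        simp only [cen, rad] at h3
        rw [inner_neg_left]
        nlinarith
    · intro y hy
      have h3 := inner_le_ball (u := w) hy
      simp only [cen, rad, inner_zero_right, zero_add] at h3
      rw [inner_neg_left]
      nlinarith

lemma fam_sUnion (T : Set (Option J)) :
    ⋃₀ (fam P r ε '' T) = ⋃ i ∈ T, closedBall (cen P i) (rad r ε i) := by
  rw [Set.sUnion_image]; rfl

lemma fam_convex_position [Finite J] (hP : Config P r0) (hR : Radii P r0 r ε)
    (T : Set (Option J)) (hT : T ≠ univ) : InConvexPosition (fam P r ε '' T) := by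
  rintro _ ⟨i, hi, rfl⟩
  have e1 := hR.ε_lt1
  have e2 := hR.ε_lt2
  have e3 := hR.ε_pos
  have e4 := hR.r_lt
  have key : ∃ w : E3, ‖w‖ = 1 ∧ ∀ k ∈ T, k ≠ i →
      inner ℝ w (cen P k) + rad r ε k < inner ℝ w (cen P i) + rad r ε i := by
    cases i with
    | some j =>
      obtain ⟨w, hw, h1, h2⟩ := hP.exp j
      refine ⟨w, hw, ?_⟩
      intro k _ hk
      cases k with
      | none => simp only [cen, rad, inner_zero_right]; linarith
      | some l =>
        have := h2 l (fun h => hk (by rw [h]))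
        simp only [cen, rad]; linarith
    | none =>
      obtain ⟨i0, hi0⟩ := (ne_univ_iff_exists_notMem T).1 hT
      have hi0' : i0 ≠ none := fun h => hi0 (h ▸ hi)
      obtain ⟨j0, rfl⟩ := Option.ne_none_iff_exists'.1 hi0'
      obtain ⟨w, hw, h1, h2⟩ := hP.exp j0
      refine ⟨w, hw, ?_⟩
      intro k hkT hk
      obtain ⟨l, rfl⟩ := Option.ne_none_iff_exists'.1 hk
      have hl : l ≠ j0 := fun h => hi0 (h ▸ hkT)
      have := h2 l hl
      simp only [cen, rad, inner_zero_right]; linarith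
  obtain ⟨w, hw, hk⟩ := key
  obtain ⟨V, hV, hne, hsub⟩ := piece (cen P) (rad r ε) T i hi (rad_pos hP hR i) w hw hk
  have hfr : frontier (fam P r ε i) = sphere (cen P i) (rad r ε i) :=
    frontier_closedBall _ (rad_pos hP hR i).ne'
  refine ⟨V ∩ frontier (fam P r ε i), inter_subset_right, ?_, V, hV, ?_, subset_rfl⟩
  · rw [hfr, fam_sUnion]; exact hsub
  · rw [hfr]; exact hne

lemma fam_not_convex_position [Finite J] (hP : Config P r0) (hR : Radii P r0 r ε) :
    ¬ InConvexPosition (range (fam P r ε)) := by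
  intro h
  obtain ⟨S, hS1, hS2, V, hV, ⟨x, hxV, hx⟩, hVS⟩ := h (fam P r ε none) ⟨none, rfl⟩
  have hxS := hVS ⟨hxV, hx⟩
  have h1 := hS2 hxS
  have hx' : x ∈ closedBall (0 : E3) r := by
    have := (isClosed_closedBall (x := (0 : E3)) (ε := r)).frontier_subset
    exact this hx
  have hxb : x ∈ ball (0 : E3) 1 := by
    rw [mem_ball]; exact lt_of_le_of_lt (mem_closedBall.1 hx') hR.r_lt
  have hsub : ball (0 : E3) 1 ⊆ convexHull ℝ (⋃₀ range (fam P r ε)) := by
    refine (ball_subset_hull P hP.cover).trans (convexHull_mono ?_)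
    rintro _ ⟨j, rfl⟩
    exact ⟨fam P r ε (some j), ⟨some j, rfl⟩, center_mem hP hR (some j)⟩
  have hint : x ∈ interior (convexHull ℝ (⋃₀ range (fam P r ε))) :=
    interior_maximal hsub isOpen_ball hxb
  exact h1.2 hint

lemma supports_normalize {u : E3} {t : ℝ} (hu : u ≠ 0) {K : Set E3} (h : Supports u t K) :
    Supports (‖u‖⁻¹ • u) (‖u‖⁻¹ * t) K := by
  have hn : 0 < ‖u‖ := norm_pos_iff.2 hu
  obtain ⟨⟨x, hx, hxt⟩, h2⟩ := h
  refine ⟨⟨x, hx, ?_⟩, ?_⟩
  · rw [inner_smul_left, conj_trivial, hxt]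
  · rcases h2 with h2 | h2
    · left; intro y hy
      rw [inner_smul_left, conj_trivial]
      exact mul_le_mul_of_nonneg_left (h2 y hy) (inv_nonneg.2 hn.le)
    · right; intro y hy
      rw [inner_smul_left, conj_trivial]
      exact mul_le_mul_of_nonneg_left (h2 y hy) (inv_nonneg.2 hn.le)

lemma fam_nondegenerate [Finite J] (hP : Config P r0) (hR : Radii P r0 r ε) :
    Nondegenerate (range (fam P r ε)) := by
  classical
  rintro G hG hcard ⟨u, t, hu, hsup⟩
  set w : E3 := ‖u‖⁻¹ • u with hw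
  set s : ℝ := ‖u‖⁻¹ * t with hs
  have hw1 : ‖w‖ = 1 := by
    rw [hw, norm_smul, norm_inv, norm_norm, inv_mul_cancel₀ (norm_ne_zero_iff.2 hu)]
  have hall : ∀ i : Option J, fam P r ε i ∈ G → |inner ℝ w (cen P i) - s| = rad r ε i := by
    intro i hi
    obtain ⟨h1, h2⟩ := supports_normalize hu (hsup _ hi)
    exact support_ball (rad_pos hP hR i).le hw1 h1 h2
  -- four distinct indices
  have hT : (fam P r ε ⁻¹' G).ncard = 4 := by
    rw [ncard_preimage_of_injective_subset_range (fam_injective hP hR) hG, hcard]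
  have hfin : (fam P r ε ⁻¹' G).Finite := toFinite _
  obtain ⟨a, ha⟩ : (fam P r ε ⁻¹' G).Nonempty := by
    apply nonempty_of_ncard_ne_zero; omega
  have h3 : ((fam P r ε ⁻¹' G) \ {a}).ncard = 3 := by
    rw [ncard_diff_singleton_of_mem ha, hT]
  obtain ⟨b, c, d, hbc, hbd, hcd, hset⟩ := ncard_eq_three.1 h3
  have hb : b ∈ (fam P r ε ⁻¹' G) \ {a} := by rw [hset]; simp
  have hc : c ∈ (fam P r ε ⁻¹' G) \ {a} := by rw [hset]; simp
  have hd : d ∈ (fam P r ε ⁻¹' G) \ {a} := by rw [hset]; simp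
  have hab : a ≠ b := fun h => hb.2 (by simp [h])
  have hac : a ≠ c := fun h => hc.2 (by simp [h])
  have had : a ≠ d := fun h => hd.2 (by simp [h])
  have ga := hall a ha
  have gb := hall b hb.1
  have gc := hall c hc.1
  have gd := hall d hd.1
  have two_none : ∀ {x y : Option J}, x = none → y = none → x ≠ y → False :=
    fun hx hy hxy => hxy (hx.trans hy.symm)
  have nn : ∀ {x : Option J}, |inner ℝ w (cen P x) - s| = rad r ε x → x = none → |s| = r := by
    rintro x hx rfl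
    simpa [cen, rad, abs_neg] using hx
  have ne' : ∀ {x y : J}, (some x : Option J) ≠ some y → x ≠ y := fun h h' => h (by rw [h'])
  cases a with
  | none =>
    obtain ⟨b, rfl⟩ := Option.ne_none_iff_exists'.1 (Ne.symm hab)
    obtain ⟨c, rfl⟩ := Option.ne_none_iff_exists'.1 (Ne.symm hac)
    obtain ⟨d, rfl⟩ := Option.ne_none_iff_exists'.1 (Ne.symm had)
    exact hR.nd3 b c d (ne' hbc) (ne' hbd) (ne' hcd) w s hw1 gb gc gd (nn ga rfl)
  | some a =>
    cases b with
    | none =>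
      obtain ⟨c, rfl⟩ := Option.ne_none_iff_exists'.1 (Ne.symm hbc)
      obtain ⟨d, rfl⟩ := Option.ne_none_iff_exists'.1 (Ne.symm hbd)
      exact hR.nd3 a c d (ne' hac) (ne' had) (ne' hcd) w s hw1 ga gc gd (nn gb rfl)
    | some b =>
      cases c with
      | none =>
        obtain ⟨d, rfl⟩ := Option.ne_none_iff_exists'.1 (Ne.symm hcd)
        exact hR.nd3 a b d (ne' hab) (ne' had) (ne' hbd) w s hw1 ga gb gd (nn gc rfl)
      | some c =>
        cases d with
        | none =>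
          exact hR.nd3 a b c (ne' hab) (ne' hac) (ne' hbc) w s hw1 ga gb gc (nn gd rfl)
        | some d =>
          exact hR.nd4 a b c d (ne' hab) (ne' hac) (ne' had) (ne' hbc) (ne' hbd) (ne' hcd)
            w s hw1 ga gb gc gd

/-- The family of balls of a point configuration. -/
theorem family_of_config [Fintype J] (hP : Config P r0) (hcard : 4 ≤ Fintype.card J) :
    ∃ F : Set (Set E3), F.Finite ∧ F.ncard = Fintype.card J + 1 ∧ (∀ K ∈ F, IsConvexBody K) ∧
      Separable F ∧ Nondegenerate F ∧ (∀ G ⊆ F, G ≠ F → InConvexPosition G) ∧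
      ¬ InConvexPosition F := by
  obtain ⟨r, ε, hR⟩ := exists_radii hP hcard
  refine ⟨range (fam P r ε), finite_range _, ?_, ?_, fam_separable hP hR,
    fam_nondegenerate hP hR, ?_, fam_not_convex_position hP hR⟩
  · rw [← image_univ, ncard_image_of_injective _ (fam_injective hP hR), ncard_univ,
      Nat.card_eq_fintype_card, Fintype.card_option]
  · rintro _ ⟨i, rfl⟩; exact fam_body hP hR i
  · intro G hG hne
    have e : G = fam P r ε '' (fam P r ε ⁻¹' G) := by
      rw [image_preimage_eq_of_subset hG]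
    rw [e]
    apply fam_convex_position hP hR
    intro hu
    apply hne
    rw [e, hu, image_univ]

end Pool.Agent.H275R2.Kwise
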