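import Pool.Agent.H275R2.Kwise.Basic
import Pool.Agent.H275R2.Kwise.Balls

set_option autoImplicit false
open Set Metric Real Filter Topology

namespace Pool.Agent.H275R2.Kwise

/-- No plane contains four of the points `P`. -/
def GP {J : Type} (P : J → E3) : Prop :=
  ∀ a b c d : J, a ≠ b → a ≠ c → a ≠ d → b ≠ c → b ≠ d → c ≠ d → ∀ (w : E3) (t : ℝ),
    inner ℝ w (P a) = t → inner ℝ w (P b) = t → inner ℝ w (P c) = t → inner ℝ w (P d) = t → w = 0

lemma eventually_four {J : Type} {P : J → E3} (hP : GP P) (a b c d : J) (hab : a ≠ b)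
    (hac : a ≠ c) (had : a ≠ d) (hbc : b ≠ c) (hbd : b ≠ d) (hcd : c ≠ d) :
    ∀ᶠ ε in 𝓝[>] (0 : ℝ), ∀ (w : E3) (t : ℝ), ‖w‖ = 1 → |inner ℝ w (P a) - t| = ε →
      |inner ℝ w (P b) - t| = ε → |inner ℝ w (P c) - t| = ε → |inner ℝ w (P d) - t| = ε →
      False := by
  let g : E3 → ℝ := fun w => |inner ℝ w (P a) - inner ℝ w (P b)| +
    |inner ℝ w (P a) - inner ℝ w (P c)| + |inner ℝ w (P a) - inner ℝ w (P d)|
  have hg : Continuous g := by fun_prop
  have hne : (sphere (0 : E3) 1).Nonempty := NormedSpace.sphere_nonempty.2 zero_le_one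
  obtain ⟨w0, hw0, hmin⟩ := (isCompact_sphere (0 : E3) 1).exists_isMinOn hne hg.continuousOn
  have hpos : 0 < g w0 := by
    have h0 : 0 ≤ g w0 := by positivity
    rcases h0.lt_or_eq with h | h
    · exact h
    · exfalso
      have e1 : |inner ℝ w0 (P a) - inner ℝ w0 (P b)| = 0 := by
        have := abs_nonneg (inner ℝ w0 (P a) - inner ℝ w0 (P b))
        have := abs_nonneg (inner ℝ w0 (P a) - inner ℝ w0 (P c))
        have := abs_nonneg (inner ℝ w0 (P a) - inner ℝ w0 (P d))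
        simp only [g] at h; linarith
      have e2 : |inner ℝ w0 (P a) - inner ℝ w0 (P c)| = 0 := by
        have := abs_nonneg (inner ℝ w0 (P a) - inner ℝ w0 (P b))
        have := abs_nonneg (inner ℝ w0 (P a) - inner ℝ w0 (P c))
        have := abs_nonneg (inner ℝ w0 (P a) - inner ℝ w0 (P d))
        simp only [g] at h; linarith
      have e3 : |inner ℝ w0 (P a) - inner ℝ w0 (P d)| = 0 := by
        have := abs_nonneg (inner ℝ w0 (P a) - inner ℝ w0 (P b))
        have := abs_nonneg (inner ℝ w0 (P a) - inner ℝ w0 (P c))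
        have := abs_nonneg (inner ℝ w0 (P a) - inner ℝ w0 (P d))
        simp only [g] at h; linarith
      rw [abs_eq_zero, sub_eq_zero] at e1 e2 e3
      have := hP a b c d hab hac had hbc hbd hcd w0 (inner ℝ w0 (P a)) rfl e1.symm e2.symm e3.symm
      rw [this] at hw0
      simp at hw0
  have hev : ∀ᶠ ε in 𝓝[>] (0 : ℝ), ε < g w0 / 7 :=
    nhdsWithin_le_nhds (Iio_mem_nhds (by positivity))
  filter_upwards [hev] with ε hε w t hw h1 h2 h3 h4
  have hgw : g w0 ≤ g w := hmin (by simpa using hw)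
  have tri : ∀ x y : ℝ, |x - t| = ε → |y - t| = ε → |x - y| ≤ 2 * ε := by
    intro x y hx hy
    calc |x - y| = |(x - t) - (y - t)| := by ring_nf
      _ ≤ |x - t| + |y - t| := abs_sub _ _
      _ = 2 * ε := by rw [hx, hy]; ring
  have t1 := tri _ _ h1 h2
  have t2 := tri _ _ h1 h3
  have t3 := tri _ _ h1 h4
  have hε0 : 0 ≤ ε := h1 ▸ abs_nonneg _
  simp only [g] at hgw hε hpos
  linarith

/-- `r` is not the distance from the origin of a plane through three of the points. -/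
def GoodRadius {J : Type} (P : J → E3) (r : ℝ) : Prop :=
  ∀ a b c : J, a ≠ b → a ≠ c → b ≠ c → ∀ (w : E3) (t : ℝ), ‖w‖ = 1 →
    inner ℝ w (P a) = t → inner ℝ w (P b) = t → inner ℝ w (P c) = t → |t| ≠ r

lemma eventually_three {J : Type} {P : J → E3} {r : ℝ} (hr : GoodRadius P r) (a b c : J)
    (hab : a ≠ b) (hac : a ≠ c) (hbc : b ≠ c) :
    ∀ᶠ ε in 𝓝[>] (0 : ℝ), ∀ (w : E3) (t : ℝ), ‖w‖ = 1 → |inner ℝ w (P a) - t| = ε →
      |inner ℝ w (P b) - t| = ε → |inner ℝ w (P c) - t| = ε → |t| = r → False := by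
  let g : E3 → ℝ := fun w => |inner ℝ w (P a) - inner ℝ w (P b)| +
    |inner ℝ w (P a) - inner ℝ w (P c)| + |(|inner ℝ w (P a)|) - r|
  have hg : Continuous g := by fun_prop
  have hne : (sphere (0 : E3) 1).Nonempty := NormedSpace.sphere_nonempty.2 zero_le_one
  obtain ⟨w0, hw0, hmin⟩ := (isCompact_sphere (0 : E3) 1).exists_isMinOn hne hg.continuousOn
  have hpos : 0 < g w0 := by
    have h0 : 0 ≤ g w0 := by positivity
    rcases h0.lt_or_eq with h | h
    · exact h
    · exfalso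
      have b1 := abs_nonneg (inner ℝ w0 (P a) - inner ℝ w0 (P b))
      have b2 := abs_nonneg (inner ℝ w0 (P a) - inner ℝ w0 (P c))
      have b3 := abs_nonneg (|inner ℝ w0 (P a)| - r)
      simp only [g] at h
      have e1 : |inner ℝ w0 (P a) - inner ℝ w0 (P b)| = 0 := by linarith
      have e2 : |inner ℝ w0 (P a) - inner ℝ w0 (P c)| = 0 := by linarith
      have e3 : |(|inner ℝ w0 (P a)|) - r| = 0 := by linarith
      rw [abs_eq_zero, sub_eq_zero] at e1 e2 e3
      exact hr a b c hab hac hbc w0 (inner ℝ w0 (P a)) (by simpa using hw0) rfl e1.symm e2.symm e3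
  have hev : ∀ᶠ ε in 𝓝[>] (0 : ℝ), ε < g w0 / 6 :=
    nhdsWithin_le_nhds (Iio_mem_nhds (by positivity))
  filter_upwards [hev] with ε hε w t hw h1 h2 h3 h4
  have hgw : g w0 ≤ g w := hmin (by simpa using hw)
  have tri : ∀ x y : ℝ, |x - t| = ε → |y - t| = ε → |x - y| ≤ 2 * ε := by
    intro x y hx hy
    calc |x - y| = |(x - t) - (y - t)| := by ring_nf
      _ ≤ |x - t| + |y - t| := abs_sub _ _
      _ = 2 * ε := by rw [hx, hy]; ring
  have t1 := tri _ _ h1 h2
  have t2 := tri _ _ h1 h3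
  have t3 : |(|inner ℝ w (P a)|) - r| ≤ ε := by
    rw [← h4, ← h1]; exact abs_abs_sub_abs_le _ _
  have hε0 : 0 ≤ ε := h1 ▸ abs_nonneg _
  simp only [g] at hgw hε hpos
  linarith

lemma abs_eq_of_planes {J : Type} {P : J → E3} (hP : GP P) {a b c d : J} (hab : a ≠ b)
    (hac : a ≠ c) (had : a ≠ d) (hbc : b ≠ c) (hbd : b ≠ d) (hcd : c ≠ d)
    {u v : E3} {s t : ℝ} (hu : ‖u‖ = 1) (hv : ‖v‖ = 1)
    (ua : inner ℝ u (P a) = s) (ub : inner ℝ u (P b) = s) (uc : inner ℝ u (P c) = s)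
    (va : inner ℝ v (P a) = t) (vb : inner ℝ v (P b) = t) (vc : inner ℝ v (P c) = t) :
    |s| = |t| := by
  set α : ℝ := inner ℝ v (P d) - t with hα
  set β : ℝ := -(inner ℝ u (P d) - s) with hβ
  by_cases h0 : β = 0
  · exfalso
    have : u = 0 := hP a b c d hab hac had hbc hbd hcd u s ua ub uc (by linarith)
    rw [this] at hu; simp at hu
  · have hw : α • u + β • v = 0 := by
      apply hP a b c d hab hac had hbc hbd hcd _ (α * s + β * t)
      · simp [inner_add_left, inner_smul_left, ua, va]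
      · simp [inner_add_left, inner_smul_left, ub, vb]
      · simp [inner_add_left, inner_smul_left, uc, vc]
      · simp only [inner_add_left, inner_smul_left, conj_trivial]
        have e1 : inner ℝ u (P d) = s - β := by rw [hβ]; ring
        have e2 : inner ℝ v (P d) = t + α := by rw [hα]; ring
        rw [e1, e2]; ring
    have h1 : α * s + β * t = 0 := by
      have : inner ℝ (α • u + β • v) (P a) = (0 : ℝ) := by rw [hw]; simp
      simpa [inner_add_left, inner_smul_left, ua, va] using this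
    have h2 : |α| = |β| := by
      have e : α • u = -(β • v) := eq_neg_of_add_eq_zero_left hw
      have := congrArg norm e
      rwa [norm_neg, norm_smul, norm_smul, hu, hv, mul_one, mul_one] at this
    have h3 : |α| * |s| = |β| * |t| := by
      rw [← abs_mul, ← abs_mul]
      have : α * s = -(β * t) := by linarith
      rw [this, abs_neg]
    have hβ0 : |β| ≠ 0 := abs_ne_zero.2 h0
    rw [h2] at h3
    exact mul_left_cancel₀ hβ0 h3

lemma exists_good_radius {J : Type} [Fintype J] {P : J → E3} (hP : GP P)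
    (hcard : 4 ≤ Fintype.card J) {r0 r1 : ℝ} (hr : r0 < r1) :
    ∃ r, r0 < r ∧ r < r1 ∧ GoodRadius P r := by
  classical
  let B : J × J × J → Set ℝ := fun q =>
    {s | (q.1 ≠ q.2.1 ∧ q.1 ≠ q.2.2 ∧ q.2.1 ≠ q.2.2) ∧ ∃ (w : E3) (t : ℝ), ‖w‖ = 1 ∧
      inner ℝ w (P q.1) = t ∧ inner ℝ w (P q.2.1) = t ∧ inner ℝ w (P q.2.2) = t ∧ |t| = s}
  have hB : ∀ q, (B q).Finite := by
    intro q
    apply Set.Subsingleton.finite
    rintro x ⟨⟨h1, h2, h3⟩, u, s, hu, ua, ub, uc, rfl⟩ y ⟨_, v, t, hv, va, vb, vc, rfl⟩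
    obtain ⟨d, hd⟩ : ∃ d, d ∉ ({q.1, q.2.1, q.2.2} : Finset J) := by
      by_contra hcon
      push Not at hcon
      have : (Finset.univ : Finset J) ⊆ {q.1, q.2.1, q.2.2} := fun x _ => hcon x
      have h4 := Finset.card_le_card this
      rw [Finset.card_univ] at h4
      have h5 := Finset.card_le_three (a := q.1) (b := q.2.1) (c := q.2.2)
      omega
    simp only [Finset.mem_insert, Finset.mem_singleton, not_or] at hd
    exact abs_eq_of_planes hP h1 h2 (Ne.symm hd.1) h3 (Ne.symm hd.2.1) (Ne.symm hd.2.2) hu hv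
      ua ub uc va vb vc
  have hBf : (⋃ q, B q).Finite := finite_iUnion hB
  obtain ⟨r, hr1, hr2⟩ := (Ioo_infinite hr).exists_notMem_finite hBf
  refine ⟨r, hr1.1, hr1.2, ?_⟩
  intro a b c hab hac hbc w t hw h1 h2 h3 h4
  apply hr2
  rw [mem_iUnion]
  exact ⟨(a, b, c), ⟨hab, hac, hbc⟩, w, t, hw, h1, h2, h3, h4⟩

end Pool.Agent.H275R2.Kwise
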