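import Pool.Agent.H275R2.Kwise.Family

set_option autoImplicit false
open Set Metric Real Filter Topology

namespace Pool.Agent.H275R2.Kwise

/-- First coordinates of the points. -/
noncomputable def X (m : ℕ) (R : ℝ) : Option (Fin m) → ℝ
  | none => 0
  | some j => R * cos (th m j)

/-- Second coordinates of the points. -/
noncomputable def Y (m : ℕ) (R : ℝ) : Option (Fin m) → ℝ
  | none => 0
  | some j => R * sin (th m j)

noncomputable def Pt (m : ℕ) (R : ℝ) (z : Option (Fin m) → ℝ) (i : Option (Fin m)) : E3 :=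
  !₂[X m R i, Y m R i, z i]

noncomputable def Ar (m : ℕ) (R : ℝ) (p q s : Option (Fin m)) : ℝ :=
  (X m R q - X m R p) * (Y m R s - Y m R p) - (Y m R q - Y m R p) * (X m R s - X m R p)

noncomputable def Dt (m : ℕ) (R : ℝ) (a b c d : Option (Fin m)) (z : Option (Fin m) → ℝ) : ℝ :=
  z a * Ar m R b c d - z b * Ar m R a c d + z c * Ar m R a b d - z d * Ar m R a b c

lemma Ar_ne {m : ℕ} (hm : 4 ≤ m) {R : ℝ} (hR : 0 < R) {i j k : Fin m} (hij : i ≠ j) (hik : i ≠ k)
    (hjk : j ≠ k) : Ar m R (some i) (some j) (some k) ≠ 0 := by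
  have hc2 : cos (2 * π / m) < 1 := by
    have hm0 : (4 : ℝ) ≤ m := by exact_mod_cast hm
    have h0 : 0 < 2 * π / m := by positivity
    have h1 : 2 * π / m ≤ π := by
      rw [div_le_iff₀ (by positivity)]
      nlinarith [pi_pos]
    rw [← cos_zero]
    exact cos_lt_cos_of_nonneg_of_le_pi le_rfl h1 h0
  have sq : ∀ i : Fin m, (R * cos (th m i)) ^ 2 + (R * sin (th m i)) ^ 2 = R ^ 2 := by
    intro i
    have := sin_sq_add_cos_sq (th m i)
    linear_combination R ^ 2 * this
  have pr : ∀ i j : Fin m, i ≠ j → (R * cos (th m i)) * (R * cos (th m j)) +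
      (R * sin (th m i)) * (R * sin (th m j)) < R ^ 2 := by
    intro i j h
    have h1 := cos_th_sub hm h
    have e : (R * cos (th m i)) * (R * cos (th m j)) +
      (R * sin (th m i)) * (R * sin (th m j)) = R ^ 2 * cos (th m i - th m j) := by
      rw [cos_sub]; ring
    rw [e]
    have : 0 < R ^ 2 := by positivity
    nlinarith
  exact noncol (sq i) (sq j) (sq k) (pr i j hij) (pr i k hik) (pr j k hjk)

lemma Dt_dense_aux {J : Type} [Fintype J] [DecidableEq J] (D : (J → ℝ) → ℝ) (e : J) (κ : ℝ)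
    (hκ : κ ≠ 0) (h : ∀ (z : J → ℝ) (s : ℝ), D (z + s • Pi.single e 1) = D z + s * κ) :
    Dense {z | D z ≠ 0} := by
  rw [dense_iff_inter_open]
  rintro U hU ⟨z, hz⟩
  have hcont : Continuous (fun s : ℝ => z + s • (Pi.single e 1 : J → ℝ)) := by fun_prop
  have hpre : IsOpen ((fun s : ℝ => z + s • (Pi.single e 1 : J → ℝ)) ⁻¹' U) := hU.preimage hcont
  obtain ⟨δ, hδ, hball⟩ := Metric.isOpen_iff.1 hpre 0 (by simpa using hz)
  have m1 : (δ / 2) ∈ ball (0 : ℝ) δ := by
    rw [mem_ball_zero_iff, Real.norm_eq_abs, abs_of_pos (by positivity)]; linarith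
  have m2 : (δ / 3) ∈ ball (0 : ℝ) δ := by
    rw [mem_ball_zero_iff, Real.norm_eq_abs, abs_of_pos (by positivity)]; linarith
  by_cases h1 : D (z + (δ / 2) • Pi.single e 1) ≠ 0
  · exact ⟨_, hball m1, h1⟩
  · by_cases h2 : D (z + (δ / 3) • Pi.single e 1) ≠ 0
    · exact ⟨_, hball m2, h2⟩
    · exfalso
      push Not at h1 h2
      rw [h] at h1 h2
      apply hκ
      have : (δ / 2 - δ / 3) * κ = 0 := by linear_combination h1 - h2
      rcases mul_eq_zero.1 this with h3 | h3
      · exfalso; linarith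
      · exact h3

lemma Dt_cont (m : ℕ) (R : ℝ) (a b c d : Option (Fin m)) : Continuous (Dt m R a b c d) := by
  unfold Dt; fun_prop

lemma Dt_dense {m : ℕ} (hm : 4 ≤ m) {R : ℝ} (hR : 0 < R) {a b c d : Option (Fin m)} (hab : a ≠ b)
    (hac : a ≠ c) (had : a ≠ d) (hbc : b ≠ c) (hbd : b ≠ d) (hcd : c ≠ d) :
    Dense {z | Dt m R a b c d z ≠ 0} := by
  have ne' : ∀ {x y : Fin m}, (some x : Option (Fin m)) ≠ some y → x ≠ y :=
    fun h h' => h (by rw [h'])
  have red : ∀ (z : Option (Fin m) → ℝ) (s : ℝ) (e x : Option (Fin m)),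
      (z + s • (Pi.single e 1 : Option (Fin m) → ℝ)) x = z x + (if x = e then s else 0) := by
    intro z s e x
    by_cases h : x = e <;> simp [h]
  have ha : Ar m R b c d ≠ 0 → Dense {z | Dt m R a b c d z ≠ 0} := by
    intro h
    apply Dt_dense_aux _ a _ h
    intro z s
    simp only [Dt, red, if_true, hab.symm, hac.symm, had.symm, if_false, add_zero]
    ring
  have hb : Ar m R a c d ≠ 0 → Dense {z | Dt m R a b c d z ≠ 0} := by
    intro h
    apply Dt_dense_aux _ b _ (neg_ne_zero.2 h)
    intro z s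
    simp only [Dt, red, if_true, hab, hbc.symm, hbd.symm, if_false, add_zero]
    ring
  have hc : Ar m R a b d ≠ 0 → Dense {z | Dt m R a b c d z ≠ 0} := by
    intro h
    apply Dt_dense_aux _ c _ h
    intro z s
    simp only [Dt, red, if_true, hac, hbc, hcd.symm, if_false, add_zero]
    ring
  have hd : Ar m R a b c ≠ 0 → Dense {z | Dt m R a b c d z ≠ 0} := by
    intro h
    apply Dt_dense_aux _ d _ (neg_ne_zero.2 h)
    intro z s
    simp only [Dt, red, if_true, had, hbd, hcd, if_false, add_zero]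
    ring
  cases a with
  | none =>
    obtain ⟨b, rfl⟩ := Option.ne_none_iff_exists'.1 (Ne.symm hab)
    obtain ⟨c, rfl⟩ := Option.ne_none_iff_exists'.1 (Ne.symm hac)
    obtain ⟨d, rfl⟩ := Option.ne_none_iff_exists'.1 (Ne.symm had)
    exact ha (Ar_ne hm hR (ne' hbc) (ne' hbd) (ne' hcd))
  | some a =>
    cases b with
    | none =>
      obtain ⟨c, rfl⟩ := Option.ne_none_iff_exists'.1 (Ne.symm hbc)
      obtain ⟨d, rfl⟩ := Option.ne_none_iff_exists'.1 (Ne.symm hbd)
      exact hb (Ar_ne hm hR (ne' hac) (ne' had) (ne' hcd))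
    | some b =>
      cases c with
      | none =>
        obtain ⟨d, rfl⟩ := Option.ne_none_iff_exists'.1 (Ne.symm hcd)
        exact hc (Ar_ne hm hR (ne' hab) (ne' had) (ne' hbd))
      | some c => exact hd (Ar_ne hm hR (ne' hab) (ne' hac) (ne' hbc))

lemma exists_heights {m : ℕ} (hm : 4 ≤ m) {R H : ℝ} (hR : 0 < R) :
    ∃ z : Option (Fin m) → ℝ, (∀ j, -3 < z (some j) ∧ z (some j) < -2) ∧ H < z none ∧
      ∀ a b c d, a ≠ b → a ≠ c → a ≠ d → b ≠ c → b ≠ d → c ≠ d → Dt m R a b c d z ≠ 0 := by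
  classical
  let Q := Option (Fin m)
  let f : Q × Q × Q × Q → Set (Q → ℝ) := fun q =>
    {z | (q.1 ≠ q.2.1 ∧ q.1 ≠ q.2.2.1 ∧ q.1 ≠ q.2.2.2 ∧ q.2.1 ≠ q.2.2.1 ∧ q.2.1 ≠ q.2.2.2 ∧
      q.2.2.1 ≠ q.2.2.2) → Dt m R q.1 q.2.1 q.2.2.1 q.2.2.2 z ≠ 0}
  have hdense : Dense (⋂ q, f q) := by
    apply dense_iInter_of_isOpen
    · intro q
      by_cases h : (q.1 ≠ q.2.1 ∧ q.1 ≠ q.2.2.1 ∧ q.1 ≠ q.2.2.2 ∧ q.2.1 ≠ q.2.2.1 ∧
        q.2.1 ≠ q.2.2.2 ∧ q.2.2.1 ≠ q.2.2.2)
      · have : f q = {z | Dt m R q.1 q.2.1 q.2.2.1 q.2.2.2 z ≠ 0} := by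
          ext z
          exact ⟨fun hz => hz h, fun hz _ => hz⟩
        rw [this]
        exact isOpen_ne_fun (Dt_cont m R _ _ _ _) continuous_const
      · have : f q = univ := by
          ext z
          exact ⟨fun _ => trivial, fun _ h' => absurd h' h⟩
        rw [this]; exact isOpen_univ
    · intro q
      by_cases h : (q.1 ≠ q.2.1 ∧ q.1 ≠ q.2.2.1 ∧ q.1 ≠ q.2.2.2 ∧ q.2.1 ≠ q.2.2.1 ∧
        q.2.1 ≠ q.2.2.2 ∧ q.2.2.1 ≠ q.2.2.2)
      · have : f q = {z | Dt m R q.1 q.2.1 q.2.2.1 q.2.2.2 z ≠ 0} := by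
          ext z
          exact ⟨fun hz => hz h, fun hz _ => hz⟩
        rw [this]
        obtain ⟨h1, h2, h3, h4, h5, h6⟩ := h
        exact Dt_dense hm hR h1 h2 h3 h4 h5 h6
      · have : f q = univ := by
          ext z
          exact ⟨fun _ => trivial, fun _ h' => absurd h' h⟩
        rw [this]; exact dense_univ
  let U : Set (Q → ℝ) := Set.pi univ (fun i => match i with
    | none => Ioo H (H + 1)
    | some _ => Ioo (-3 : ℝ) (-2))
  have hU : IsOpen U := by
    apply isOpen_set_pi finite_univ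
    intro i _
    cases i <;> exact isOpen_Ioo
  have hne : U.Nonempty := by
    refine ⟨fun i => match i with
      | none => H + 1 / 2
      | some _ => -5 / 2, ?_⟩
    intro i _
    cases i with
    | none => show H + 1 / 2 ∈ Ioo H (H + 1); constructor <;> linarith
    | some _ => show (-5 / 2 : ℝ) ∈ Ioo (-3 : ℝ) (-2); constructor <;> norm_num
  obtain ⟨z, hzU, hz⟩ := hdense.inter_open_nonempty U hU hne
  refine ⟨z, ?_, ?_, ?_⟩
  · intro j; exact hzU (some j) trivial
  · exact (hzU none trivial).1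
  · intro a b c d h1 h2 h3 h4 h5 h6
    rw [mem_iInter] at hz
    exact hz (a, b, c, d) ⟨h1, h2, h3, h4, h5, h6⟩

lemma inner_Pt (m : ℕ) (R : ℝ) (z : Option (Fin m) → ℝ) (i : Option (Fin m)) (w : E3) :
    inner ℝ w (Pt m R z i) = w 0 * X m R i + w 1 * Y m R i + w 2 * z i := by
  rw [inner3]; simp [Pt]

lemma gp_of_Dt {m : ℕ} (hm : 4 ≤ m) {R : ℝ} (hR : 0 < R) {z : Option (Fin m) → ℝ}
    (hz : ∀ a b c d, a ≠ b → a ≠ c → a ≠ d → b ≠ c → b ≠ d → c ≠ d → Dt m R a b c d z ≠ 0) :
    GP (Pt m R z) := by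
  intro a b c d hab hac had hbc hbd hcd w t ha hb hc hd
  rw [inner_Pt] at ha hb hc hd
  have hD := hz a b c d hab hac had hbc hbd hcd
  have h2 : w 2 = 0 := by
    have : w 2 * Dt m R a b c d z = 0 := by
      unfold Dt Ar
      linear_combination ((X m R c - X m R b) * (Y m R d - Y m R b) -
          (Y m R c - Y m R b) * (X m R d - X m R b)) * ha -
        ((X m R c - X m R a) * (Y m R d - Y m R a) -
          (Y m R c - Y m R a) * (X m R d - X m R a)) * hb +
        ((X m R b - X m R a) * (Y m R d - Y m R a) -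
          (Y m R b - Y m R a) * (X m R d - X m R a)) * hc -
        ((X m R b - X m R a) * (Y m R c - Y m R a) -
          (Y m R b - Y m R a) * (X m R c - X m R a)) * hd
    exact (mul_eq_zero.1 this).resolve_right hD
  rw [h2] at ha hb hc hd
  have key : ∀ p q s : Option (Fin m), Ar m R p q s ≠ 0 →
      w 0 * X m R p + w 1 * Y m R p + 0 * z p = t →
      w 0 * X m R q + w 1 * Y m R q + 0 * z q = t →
      w 0 * X m R s + w 1 * Y m R s + 0 * z s = t → w = 0 := by
    intro p q s hA hp hq hs
    have e0 : w 0 = 0 := by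
      have : w 0 * Ar m R p q s = 0 := by
        unfold Ar
        linear_combination (Y m R s - Y m R p) * (hq - hp) - (Y m R q - Y m R p) * (hs - hp)
      exact (mul_eq_zero.1 this).resolve_right hA
    have e1 : w 1 = 0 := by
      have : w 1 * Ar m R p q s = 0 := by
        unfold Ar
        linear_combination (X m R q - X m R p) * (hs - hp) - (X m R s - X m R p) * (hq - hp)
      exact (mul_eq_zero.1 this).resolve_right hA
    ext i
    fin_cases i
    · simpa using e0
    · simpa using e1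
    · simpa using h2
  have hex : Ar m R b c d ≠ 0 ∨ Ar m R a c d ≠ 0 ∨ Ar m R a b d ≠ 0 ∨ Ar m R a b c ≠ 0 := by
    by_contra hcon
    push Not at hcon
    obtain ⟨h1, h2, h3, h4⟩ := hcon
    apply hD
    unfold Dt
    rw [h1, h2, h3, h4]; ring
  rcases hex with h | h | h | h
  · exact key _ _ _ h hb hc hd
  · exact key _ _ _ h ha hc hd
  · exact key _ _ _ h ha hb hd
  · exact key _ _ _ h ha hb hc

lemma norm_le_of_sq {w : E3} {B : ℝ} (hB : 0 ≤ B) (h : w 0 ^ 2 + w 1 ^ 2 + w 2 ^ 2 ≤ B ^ 2) :
    ‖w‖ ≤ B := by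
  rw [← norm3] at h
  exact (le_abs_self _).trans (abs_le_of_sq_le_sq h hB)

theorem exists_config {m : ℕ} (hm : 4 ≤ m) :
    ∃ (P : Option (Fin m) → E3) (r0 : ℝ), Config P r0 := by
  have hm0 : (4 : ℝ) ≤ m := by exact_mod_cast hm
  have hmp : (0 : ℝ) < m := by linarith
  have hpi := pi_pos
  set c1 := cos (π / m) with hc1
  set c2 := cos (2 * π / m) with hc2
  have h2pm : 2 * π / m ≤ π / 2 := by
    rw [div_le_div_iff₀ hmp (by norm_num)]; nlinarith
  have hc2n : 0 ≤ c2 := cos_nonneg_of_neg_pi_div_two_le_of_le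
    (by have : 0 < 2 * π / m := by positivity
        linarith) h2pm
  have hlt : π / m < 2 * π / m := by
    rw [div_lt_div_iff_of_pos_right hmp]; linarith
  have hc12 : c2 < c1 := cos_lt_cos_of_nonneg_of_le_pi (by positivity) (by linarith) hlt
  have hc1p : 0 < c1 := lt_of_le_of_lt hc2n hc12
  have hc11 : c1 ≤ 1 := cos_le_one _
  set R : ℝ := 2 / (c1 + c2) with hRdef
  have hs : 0 < c1 + c2 := by linarith
  have hR0 : 0 < R := by positivity
  have hρ : 1 < R * c1 := by
    rw [hRdef, div_mul_eq_mul_div, lt_div_iff₀ hs]; linarith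
  have hRc2 : R * c2 < 1 := by
    rw [hRdef, div_mul_eq_mul_div, div_lt_iff₀ hs]; linarith
  have hRc2n : 0 ≤ R * c2 := by positivity
  have hR1 : 1 < R := by nlinarith
  set s : ℝ := (R - 1) / 4 with hsdef
  have hs0 : 0 < s := by rw [hsdef]; linarith
  set H : ℝ := max ((R * c1 + 3) / (R * c1 - 1)) ((1 + s) / s) with hH
  have hH1 : R * c1 + 3 ≤ (R * c1 - 1) * H := by
    have h1 : (R * c1 + 3) / (R * c1 - 1) ≤ H := le_max_left _ _
    rw [div_le_iff₀ (by linarith)] at h1
    linarith
  have hH2 : 1 + s ≤ s * H := by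
    have h1 : (1 + s) / s ≤ H := le_max_right _ _
    rw [div_le_iff₀ hs0] at h1
    linarith
  have hH3 : 1 < H := by nlinarith
  obtain ⟨z, hz1, hz2, hz3⟩ := exists_heights hm (R := R) (H := H) hR0
  have inn_none : ∀ w : E3, inner ℝ w (Pt m R z none) = w 2 * z none := by
    intro w; rw [inner_Pt]; simp [X, Y]
  have inn_some : ∀ (w : E3) (j : Fin m), inner ℝ w (Pt m R z (some j)) =
      R * (w 0 * cos (th m j) + w 1 * sin (th m j)) + w 2 * z (some j) := by
    intro w j; rw [inner_Pt]; simp only [X, Y]; ring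
  refine ⟨Pt m R z, (1 + R * c2) / 2, ?_, ?_, ?_, ?_, ?_, gp_of_Dt hm hR0 hz3⟩
  · linarith
  · linarith
  · -- cover
    intro w
    set v := √(w 0 ^ 2 + w 1 ^ 2) with hv
    have hv0 : 0 ≤ v := sqrt_nonneg _
    have hv2 : v ^ 2 = w 0 ^ 2 + w 1 ^ 2 := sq_sqrt (by positivity)
    obtain ⟨j, hj⟩ := exists_near_vec hm (w 0) (w 1)
    rw [← hv, ← hc1] at hj
    have hwn : ‖w‖ ≤ v + |w 2| := by
      apply norm_le_of_sq (by positivity)
      rw [← hv2]
      have := sq_abs (w 2)
      nlinarith [abs_nonneg (w 2)]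
    have hbase : R * c1 * v + w 2 * z (some j) ≤ inner ℝ w (Pt m R z (some j)) := by
      rw [inn_some]
      nlinarith
    obtain ⟨hz1a, hz1b⟩ := hz1 j
    rcases le_or_gt (w 2) 0 with h | h
    · refine ⟨some j, ?_⟩
      rw [abs_of_nonpos h] at hwn
      nlinarith
    · rw [abs_of_pos h] at hwn
      by_cases h3 : ‖w‖ ≤ w 2 * H
      · refine ⟨none, ?_⟩
        rw [inn_none]
        nlinarith
      · refine ⟨some j, ?_⟩
        push Not at h3
        have h4 : -3 * w 2 ≤ w 2 * z (some j) := by nlinarith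
        have h5 : R * c1 * (‖w‖ - w 2) ≤ R * c1 * v := by
          apply mul_le_mul_of_nonneg_left (by linarith) (by positivity)
        have h6 : (R * c1 + 3) * w 2 ≤ (R * c1 - 1) * ‖w‖ := by
          calc (R * c1 + 3) * w 2 ≤ (R * c1 - 1) * H * w 2 :=
                mul_le_mul_of_nonneg_right hH1 h.le
            _ = (R * c1 - 1) * (w 2 * H) := by ring
            _ ≤ (R * c1 - 1) * ‖w‖ := by
                apply mul_le_mul_of_nonneg_left h3.le (by linarith)
        nlinarith
  · -- pair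
    have hmix : ∀ j : Fin m, ∃ w : E3, w ≠ 0 ∧ ‖w‖ ≤ inner ℝ w (Pt m R z none) ∧
        ‖w‖ ≤ inner ℝ w (Pt m R z (some j)) := by
      intro j
      obtain ⟨hz1a, hz1b⟩ := hz1 j
      have hcs := sin_sq_add_cos_sq (th m j)
      refine ⟨!₂[cos (th m j), sin (th m j), s], ?_, ?_, ?_⟩
      · intro h0
        have := congrArg (fun v : E3 => v 2) h0
        simp at this
        linarith
      · have hn : ‖(!₂[cos (th m j), sin (th m j), s] : E3)‖ ≤ 1 + s := by
          apply norm_le_of_sq (by positivity)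
          simp only [PiLp.toLp_apply, Matrix.cons_val_zero, Matrix.cons_val_one, Matrix.cons_val]
          nlinarith
        rw [inn_none]
        simp only [PiLp.toLp_apply, Matrix.cons_val]
        nlinarith
      · have hn : ‖(!₂[cos (th m j), sin (th m j), s] : E3)‖ ≤ 1 + s := by
          apply norm_le_of_sq (by positivity)
          simp only [PiLp.toLp_apply, Matrix.cons_val_zero, Matrix.cons_val_one, Matrix.cons_val]
          nlinarith
        rw [inn_some]
        simp only [PiLp.toLp_apply, Matrix.cons_val_zero, Matrix.cons_val_one, Matrix.cons_val]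
        have e : cos (th m j) * cos (th m j) + sin (th m j) * sin (th m j) = 1 := by
          linear_combination hcs
        rw [e]
        nlinarith
    intro i j hij
    cases i with
    | none =>
      cases j with
      | none => exact absurd rfl hij
      | some j =>
        obtain ⟨w, h1, h2, h3⟩ := hmix j
        exact ⟨w, h1, h2, h3⟩
    | some i =>
      cases j with
      | none =>
        obtain ⟨w, h1, h2, h3⟩ := hmix i
        exact ⟨w, h1, h3, h2⟩
      | some j =>
        have hn : ‖(!₂[0, 0, -1] : E3)‖ ≤ 1 := by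
          apply norm_le_of_sq (by positivity)
          simp
        refine ⟨!₂[0, 0, -1], ?_, ?_, ?_⟩
        · intro h0
          have := congrArg (fun v : E3 => v 2) h0
          simp at this
        · rw [inn_some]
          simp only [PiLp.toLp_apply, Matrix.cons_val_zero, Matrix.cons_val_one, Matrix.cons_val]
          have := (hz1 i).2
          linarith
        · rw [inn_some]
          simp only [PiLp.toLp_apply, Matrix.cons_val_zero, Matrix.cons_val_one, Matrix.cons_val]
          have := (hz1 j).2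
          linarith
  · -- exposure
    intro i
    cases i with
    | none =>
      refine ⟨!₂[0, 0, 1], ?_, ?_, ?_⟩
      · have : ‖(!₂[0, 0, 1] : E3)‖ ^ 2 = 1 := by rw [norm3]; simp
        have h0 := norm_nonneg (!₂[0, 0, 1] : E3)
        nlinarith
      · rw [inn_none]
        simp only [PiLp.toLp_apply, Matrix.cons_val]
        linarith
      · intro j hj
        obtain ⟨k, rfl⟩ := Option.ne_none_iff_exists'.1 hj
        rw [inn_some]
        simp only [PiLp.toLp_apply, Matrix.cons_val_zero, Matrix.cons_val_one, Matrix.cons_val]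
        have := (hz1 k).2
        linarith
    | some i =>
      have hcs := sin_sq_add_cos_sq (th m i)
      refine ⟨!₂[cos (th m i), sin (th m i), 0], ?_, ?_, ?_⟩
      · have : ‖(!₂[cos (th m i), sin (th m i), 0] : E3)‖ ^ 2 = 1 := by
          rw [norm3]
          simp only [PiLp.toLp_apply, Matrix.cons_val_zero, Matrix.cons_val_one, Matrix.cons_val]
          linarith
        have h0 := norm_nonneg (!₂[cos (th m i), sin (th m i), 0] : E3)
        nlinarith
      · rw [inn_some]
        simp only [PiLp.toLp_apply, Matrix.cons_val_zero, Matrix.cons_val_one, Matrix.cons_val]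
        have e : cos (th m i) * cos (th m i) + sin (th m i) * sin (th m i) = 1 := by
          linear_combination hcs
        rw [e]; linarith
      · intro j hj
        cases j with
        | none =>
          rw [inn_none]
          simp only [PiLp.toLp_apply, Matrix.cons_val]
          linarith
        | some j =>
          rw [inn_some]
          simp only [PiLp.toLp_apply, Matrix.cons_val_zero, Matrix.cons_val_one, Matrix.cons_val]
          have hne : i ≠ j := fun h => hj (by rw [h])
          have h1 := cos_th_sub hm hne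
          rw [cos_sub, ← hc2] at h1
          nlinarith

end Pool.Agent.H275R2.Kwise
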